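import Pool.Agent.Helper70.BN.St3

/-!
Project BN (MP_a2f62e_al), module NSTD: from the standard axioms of a BN pair to the class `LieBN`.
-/

set_option autoImplicit false

namespace Pool.Agent.Helper55.BN

open Pool.Agent.Helper70.BN Pool.Agent.Helper75.MX

/-- two elements that differ by an element of `B` have the same double coset -/
theorem dc_of_dc {Q : Type} [Group Q] {B : Subgroup Q} {w w' x : Q} (h : w⁻¹ * w' ∈ B) (hx : DC B w' x) :
    DC B w x := by
  obtain ⟨b, hb, b', hb', rfl⟩ := hx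
  exact ⟨b, hb, w⁻¹ * w' * b', B.mul_mem h hb', by group⟩

theorem inv_side {Q : Type} [Group Q] {B : Subgroup Q} {w w' : Q} (h : w⁻¹ * w' ∈ B) : w'⁻¹ * w ∈ B := by
  have := B.inv_mem h
  have e : (w⁻¹ * w')⁻¹ = w'⁻¹ * w := by group
  rwa [e] at this

/-- the parameter of a word of minimal length is at most the order of the group -/
theorem prod_le {Q : Type} [Group Q] [Finite Q] {l : ℕ} {B N : Subgroup Q} {n : Fin l → Q} {q : Fin l → ℕ}
    (hNGEO : StNGEO) (hB : BNpair B N n q) {u : List (Fin l)} (hu : Geo B n u) :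
    (u.map q).prod ≤ Nat.card Q := by
  have h1 := (hNGEO Q l B N n q hB u hu).2
  have h2 : Nat.card {x : Q // DC B (nw n u) x} ≤ Nat.card Q :=
    Nat.card_le_card_of_injective Subtype.val Subtype.val_injective
  have h3 : 0 < Nat.card B := Nat.card_pos
  rw [h1] at h2
  exact le_trans (Nat.le_mul_of_pos_left _ h3) h2

/-- words of minimal length with the same element have the same parameter -/
theorem prod_eq {Q : Type} [Group Q] [Finite Q] {l : ℕ} {B N : Subgroup Q} {n : Fin l → Q} {q : Fin l → ℕ}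
    (hNGEO : StNGEO) (hB : BNpair B N n q) {u v : List (Fin l)} (hu : Geo B n u) (hv : Geo B n v)
    (h : (nw n u)⁻¹ * nw n v ∈ B) : (u.map q).prod = (v.map q).prod := by
  have h1 := (hNGEO Q l B N n q hB u hu).2
  have h2 := (hNGEO Q l B N n q hB v hv).2
  have h3 : Nat.card {x : Q // DC B (nw n u) x} = Nat.card {x : Q // DC B (nw n v) x} :=
    Nat.card_congr (Equiv.subtypeEquivRight fun x => ⟨dc_of_dc (inv_side h), dc_of_dc h⟩)
  have h4 : 0 < Nat.card B := Nat.card_pos
  rw [h1, h2] at h3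
  exact Nat.eq_of_mul_eq_mul_left h4 h3

/-- the parameter of an alternating word -/
theorem alt_prod {l : ℕ} (q : Fin l → ℕ) (i j : Fin l) (m : ℕ) :
    ((alt i j m).map q).prod = q i ^ ((m + 1) / 2) * q j ^ (m / 2) := by
  induction m generalizing i j with
  | zero => simp [alt]
  | succ m ih =>
    have h1 : (m + 1 + 1) / 2 = m / 2 + 1 := by omega
    rw [alt, List.map_cons, List.prod_cons, ih j i, h1, pow_succ]
    ring

/-- `q_i = q_j` if `m` is odd -/
theorem q_eq {l : ℕ} (q : Fin l → ℕ) (hq : ∀ i, 2 ≤ q i) (i j : Fin l) (m : ℕ) (hm : Odd m)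
    (h : ((alt i j m).map q).prod = ((alt j i m).map q).prod) : q i = q j := by
  obtain ⟨k, rfl⟩ := hm
  rw [alt_prod, alt_prod] at h
  have h1 : (2 * k + 1 + 1) / 2 = k + 1 := by omega
  have h2 : (2 * k + 1) / 2 = k := by omega
  rw [h1, h2] at h
  have hi : 0 < q i := by have := hq i; omega
  have hj : 0 < q j := by have := hq j; omega
  have h3 : 0 < q i ^ k * q j ^ k := Nat.mul_pos (Nat.pow_pos hi) (Nat.pow_pos hj)
  apply Nat.eq_of_mul_eq_mul_left h3
  calc q i ^ k * q j ^ k * q i = q i ^ (k + 1) * q j ^ k := by ring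
    _ = q j ^ (k + 1) * q i ^ k := h
    _ = q i ^ k * q j ^ k * q j := by ring

theorem mm_comm {l : ℕ} (A : Fin l → Fin l → ℤ) (i j : Fin l) : mm A i j = mm A j i := by
  unfold mm
  rw [mul_comm (A i j) (A j i)]

/-- the double coset of a pair of alternating words -/
theorem pair {Q : Type} [Group Q] [Finite Q] {l : ℕ} {B N : Subgroup Q} {n : Fin l → Q} {q : Fin l → ℕ}
    (hNGEO : StNGEO) (hB : BNpair B N n q) {u v : List (Fin l)} (hu : Geo B n u) (hv : Geo B n v)
    (h : (nw n u)⁻¹ * nw n v ∈ B) :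
    ∃ w : Q, (∀ x, PB B (u.map n) x → DC B w x) ∧ ∀ x, PB B (v.map n) x → DC B w x :=
  ⟨nw n u, (hNGEO Q l B N n q hB u hu).1, fun x hx => dc_of_dc h ((hNGEO Q l B N n q hB v hv).1 x hx)⟩

/-- the generation of the group -/
theorem gen_top {Q : Type} [Group Q] {l : ℕ} {B N : Subgroup Q} {n : Fin l → Q} {q : Fin l → ℕ}
    (hB : BNpair B N n q) : Subgroup.closure ((B : Set Q) ∪ Set.range n) = ⊤ := by
  rw [eq_top_iff, ← hB.gen]
  refine sup_le ?_ ?_
  · intro x hx
    exact Subgroup.subset_closure (Or.inl hx)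
  · rw [← hB.genN]
    apply Subgroup.closure_mono
    intro x hx
    rcases hx with hx | hx
    · exact Or.inl hx.1
    · exact Or.inr hx

/-- NSTD (statement `StNSTD` of project BN) -/
theorem hNSTD (hNPRD : StNPRD) (hNGEO : StNGEO) (hNCRY : StNCRY) (hNDIH : StNDIH) : StNSTD := by
  intro a Q _ _ hQ
  obtain ⟨l, B, N, n, q, hB, hW, hR, hT⟩ := hQ
  have hq : ∀ i, 2 ≤ q i := fun i => (hB.par i).1
  have h2 : ∀ i, ∀ b ∈ B, n i * b * n i ∈ B ∨ DC B (n i) (n i * b * n i) := by
    intro i b hb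
    rcases hB.ax i b hb (n i) (hB.mem i) with h | h
    · exact Or.inr h
    · left
      obtain ⟨c, hc, c', hc', e⟩ := h
      rw [e]
      exact B.mul_mem (B.mul_mem hc (hB.sq i)) hc'
  rcases hW with ⟨A, d, Φ, hRS, hA⟩ | ⟨i₀, j₀, hij, hall, hnB⟩
  · obtain ⟨g1, g2, g3⟩ := hNCRY Q l B N n q hB A d Φ hRS hA
    have g2' : ∀ i j, i ≠ j → Geo B n (alt j i (mm A i j)) := by
      intro i j h
      have := g1 _ (g2 j i h.symm)
      rwa [mm_comm A j i] at this
    refine ⟨l, B, n, q, mm A, hB.sq, h2, hB.par, ?_, gen_top hB, ?_, hR, hT⟩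
    · intro i j h
      exact pair hNGEO hB (g1 _ (g2 i j h)) (g2' i j h) (g3 i j h)
    · left
      refine ⟨A, d, Φ, hRS, fun i j _ => rfl, ?_, fun w hw => prod_le hNGEO hB (g1 w hw)⟩
      intro i j h h3
      have h4 := prod_eq hNGEO hB (g1 _ (g2 i j h)) (g2' i j h) (g3 i j h)
      rw [h3] at h4
      exact q_eq q hq i j 3 (by decide) h4
  · have hnot := (hNPRD Q l B N n q hB).1
    obtain ⟨m, hm, g1, g2, g3⟩ := hNDIH Q l B N n q hB hnot i₀ j₀ hij hall hnB
    refine ⟨l, B, n, q, fun _ _ => m, hB.sq, h2, hB.par, ?_, gen_top hB, ?_, hR, hT⟩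
    · intro i j h
      rcases hall i with rfl | rfl
      · rcases hall j with rfl | rfl
        · exact absurd rfl h
        · exact pair hNGEO hB g1 g2 g3
      · rcases hall j with rfl | rfl
        · exact pair hNGEO hB g2 g1 (inv_side g3)
        · exact absurd rfl h
    · right
      refine ⟨i₀, j₀, hij, hall, hm, rfl, ?_, prod_le hNGEO hB g1, prod_le hNGEO hB g2⟩
      intro hodd
      exact q_eq q hq i₀ j₀ m hodd (prod_eq hNGEO hB g1 g2 g3)

end Pool.Agent.Helper55.BN
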