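import Pool.Agent.Helper70.BN.St1

/-!
Project BN (MP_a2f62e_al), module YB4: the Yang-Baxter equation for `m = 4`.
-/

set_option autoImplicit false

namespace Pool.Agent.Helper55.BN

open Pool.Agent.Helper70.BN

/-- expansion of the product of four factors -/
theorem expand4 {H : Type} [Ring H] [Algebra ℝ H] (S T : H) (a b c d : ℝ) :
    (algebraMap ℝ H a + S) * (algebraMap ℝ H b + T) * (algebraMap ℝ H c + S) * (algebraMap ℝ H d + T) =
      (a * b * c * d) • (1 : H) + (b * c * d + a * b * d) • S + (a * c * d + a * b * c) • T +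
        (c * d + b * c + a * b) • (S * T) + (a * d) • (T * S) + (b * d) • (S * S) + (a * c) • (T * T) +
        d • (S * T * S) + a • (T * S * T) + c • (S * (T * T)) + b • ((S * S) * T) + S * T * S * T := by
  simp only [Algebra.algebraMap_eq_smul_one, add_mul, mul_add, smul_mul_assoc, mul_smul_comm, one_mul, mul_one,
    smul_smul, smul_add, mul_assoc]
  module

theorem expand4' {H : Type} [Ring H] [Algebra ℝ H] (S T : H) (a b c d : ℝ) :
    (algebraMap ℝ H d + T) * (algebraMap ℝ H c + S) * (algebraMap ℝ H b + T) * (algebraMap ℝ H a + S) =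
      (a * b * c * d) • (1 : H) + (b * c * d + a * b * d) • S + (a * c * d + a * b * c) • T +
        (c * d + b * c + a * b) • (T * S) + (a * d) • (S * T) + (b * d) • (S * S) + (a * c) • (T * T) +
        d • (S * T * S) + a • (T * S * T) + c • ((T * T) * S) + b • (T * (S * S)) + T * S * T * S := by
  simp only [Algebra.algebraMap_eq_smul_one, add_mul, mul_add, smul_mul_assoc, mul_smul_comm, one_mul, mul_one,
    smul_smul, smul_add, mul_assoc]
  module

/-- YB4 (statement `StYB4` of project BN) -/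
theorem hYB4 : StYB4 := by
  intro H _ _ S T q r x y hS hT hB hx hy hxy hxxy
  have hx' : x - 1 ≠ 0 := sub_ne_zero.mpr hx
  have hy' : y - 1 ≠ 0 := sub_ne_zero.mpr hy
  have hxy' : x * y - 1 ≠ 0 := sub_ne_zero.mpr hxy
  have hxxy' : x ^ 2 * y - 1 ≠ 0 := sub_ne_zero.mpr hxxy
  have key : (q - 1) / (x - 1) * ((r - 1) / (y - 1)) =
      (q - 1) / (x - 1) * ((r - 1) / (x ^ 2 * y - 1)) +
      (r - 1) / (x ^ 2 * y - 1) * ((q - 1) / (x * y - 1)) +
      (q - 1) / (x * y - 1) * ((r - 1) / (y - 1)) + (r - 1) / (x ^ 2 * y - 1) * (q - 1) +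
      (q - 1) / (x * y - 1) * (r - 1) := by
    field_simp
    ring
  generalize (q - 1) / (x - 1) = a at key ⊢
  generalize (r - 1) / (x ^ 2 * y - 1) = b at key ⊢
  generalize (q - 1) / (x * y - 1) = c at key ⊢
  generalize (r - 1) / (y - 1) = d at key ⊢
  have hS' : S * S = q • (1 : H) + (q - 1) • S := by
    rw [hS, Algebra.algebraMap_eq_smul_one, Algebra.algebraMap_eq_smul_one, smul_mul_assoc, one_mul]
  have hT' : T * T = r • (1 : H) + (r - 1) • T := by
    rw [hT, Algebra.algebraMap_eq_smul_one, Algebra.algebraMap_eq_smul_one, smul_mul_assoc, one_mul]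
  have h1 : S * (T * T) = r • S + (r - 1) • (S * T) := by
    rw [hT', mul_add, mul_smul_comm, mul_smul_comm, mul_one]
  have h2 : (S * S) * T = q • T + (q - 1) • (S * T) := by
    rw [hS', add_mul, smul_mul_assoc, smul_mul_assoc, one_mul]
  have h3 : (T * T) * S = r • S + (r - 1) • (T * S) := by
    rw [hT', add_mul, smul_mul_assoc, smul_mul_assoc, one_mul]
  have h4 : T * (S * S) = q • T + (q - 1) • (T * S) := by
    rw [hS', mul_add, mul_smul_comm, mul_smul_comm, mul_one]
  rw [expand4, expand4', h1, h2, h3, h4, hB]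
  have hz : (a * d - (a * b + b * c + c * d + b * (q - 1) + c * (r - 1))) • (S * T - T * S) = 0 := by
    rw [key]
    simp
  rw [← sub_eq_zero]
  refine Eq.trans ?_ (neg_eq_zero.mpr hz)
  module

end Pool.Agent.Helper55.BN
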